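import Pool.Agent.Lib.MP_ddde1e_an.Skew

/-!
Interpolation of real sequences by a skew product, and integer powers of a homeomorphism.
-/

namespace Pool.Agent.Lib.MP_ddde1e_an

open Finset

theorem h50_real {n : ℕ → ℕ} (hn : StrictMono n)
    (hg : Filter.Tendsto (fun k : ℕ => n (k + 1) - n k) Filter.atTop Filter.atTop)
    (φ : ℕ → ℝ) {C : ℝ} (hC : ∀ k, |φ k| ≤ C) :
    ∃ (ψ : ℤ_[2] → ℝ) (hψ : Continuous ψ) (x : ℤ_[2] × UnitAddCircle),
      ∀ k, 4 * (C + 1) * ‖((⇑(skew ψ hψ))^[n k] x).2‖ - C = φ k := by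
  have hC0 : 0 ≤ C := (abs_nonneg _).trans (hC 0)
  let θ : ℕ → ℝ := fun k => (φ k + C) / (4 * (C + 1))
  obtain ⟨ψ, hψ, hsum⟩ := exists_cocycle hn hg (fun k => θ (k + 1) - θ k)
  let y : ℝ := θ 0 - ∑ j ∈ range (n 0), ψ j
  have hkey : ∀ k, ∃ z : ℤ, y + ∑ j ∈ range (n k), ψ j = θ k + z := by
    intro k
    induction k with
    | zero => exact ⟨0, by simp [y]⟩
    | succ k ih =>
      obtain ⟨z, hz⟩ := ih
      obtain ⟨w, hw⟩ := hsum k
      refine ⟨z + w, ?_⟩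
      rw [← sum_range_add_sum_Ico _ (hn.monotone (Nat.le_succ k)), ← add_assoc, hz, hw]
      push_cast
      ring
  refine ⟨ψ, hψ, (0, (y : UnitAddCircle)), fun k => ?_⟩
  rw [skew_iterate]
  obtain ⟨z, hz⟩ := hkey k
  have hcoe : ((y + ∑ j ∈ range (n k), ψ j : ℝ) : UnitAddCircle) = ((θ k : ℝ) : UnitAddCircle) := by
    have hz0 : (((z : ℤ) : ℝ) : UnitAddCircle) = 0 :=
      (AddCircle.coe_eq_zero_iff (1 : ℝ)).mpr ⟨z, by simp⟩
    rw [hz, AddCircle.coe_add, hz0, add_zero]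
  have hpos : 0 < 4 * (C + 1) := by positivity
  have hk := abs_le.mp (hC k)
  have h0 : 0 ≤ θ k := div_nonneg (by linarith [hk.1]) hpos.le
  have h1 : θ k ≤ 1 / 2 := by
    simp only [θ]
    rw [div_le_iff₀ hpos]
    linarith [hk.2]
  have hnorm : ‖((θ k : ℝ) : UnitAddCircle)‖ = θ k := by
    rw [(AddCircle.norm_coe_eq_abs_iff (1 : ℝ) one_ne_zero).mpr
      (by rw [abs_of_nonneg h0, abs_one]; exact h1), abs_of_nonneg h0]
  simp only
  rw [hcoe, hnorm]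
  simp only [θ]
  field_simp
  ring

theorem h50_pow {X : Type} [TopologicalSpace X] (T : X ≃ₜ X) (m : ℕ) (x : X) :
    (T ^ m) x = (⇑T)^[m] x := by
  induction m generalizing x with
  | zero => rfl
  | succ m ih => rw [pow_succ, Homeomorph.mul_apply, ih, Function.iterate_succ_apply]

theorem h50_prod {X Y : Type} [TopologicalSpace X] [TopologicalSpace Y] (T : X ≃ₜ X) (U : Y ≃ₜ Y)
    (m : ℤ) (p : X × Y) : (T.prodCongr U ^ m) p = ((T ^ m) p.1, (U ^ m) p.2) := by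
  let f : (X ≃ₜ X) × (Y ≃ₜ Y) →* (X × Y ≃ₜ X × Y) :=
    MonoidHom.mk' (fun q => q.1.prodCongr q.2) fun _ _ => rfl
  exact congrArg (fun g : X × Y ≃ₜ X × Y => g p) (map_zpow f (T, U) m).symm

theorem h50_distal (ψ : ℤ_[2] → ℝ) (hψ : Continuous ψ) (p q : ℤ_[2] × UnitAddCircle)
    (hpq : p ≠ q) : ∃ ε : ℝ, 0 < ε ∧ ∀ m : ℤ, ε ≤ dist ((skew ψ hψ ^ m) p) ((skew ψ hψ ^ m) q) := by
  obtain ⟨ε, hε, h⟩ := skew_distal ψ hψ p q hpq
  refine ⟨ε, hε, fun m => ?_⟩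
  obtain ⟨k, rfl | rfl⟩ := m.eq_nat_or_neg
  · rw [zpow_natCast, h50_pow, h50_pow]
    exact (h k).1
  · rw [zpow_neg, zpow_natCast, ← inv_pow, h50_pow, h50_pow]
    exact (h k).2

end Pool.Agent.Lib.MP_ddde1e_an
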