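import Mathlib

set_option autoImplicit false

namespace Pool.Agent.Lib.MP_ddde1e_an

open Finset

/-- A function of the residue of a 2-adic integer modulo `2 ^ m` is continuous. -/
theorem continuous_residue (m : ℕ) (c : ℕ → ℝ) :
    Continuous (fun x : ℤ_[2] => c (PadicInt.toZModPow m x).val) := by
  have hlc : IsLocallyConstant (fun x : ℤ_[2] => c (PadicInt.toZModPow m x).val) := by
    rw [IsLocallyConstant.iff_exists_open]
    intro x
    have hpos : (0 : ℝ) < ((2 : ℕ) : ℝ) ^ (-(m : ℤ)) := by positivity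
    refine ⟨Metric.ball x (((2 : ℕ) : ℝ) ^ (-(m : ℤ))), Metric.isOpen_ball,
      Metric.mem_ball_self hpos, ?_⟩
    intro y hy
    have h1 : ‖y - x‖ ≤ ((2 : ℕ) : ℝ) ^ (-(m : ℤ)) := by
      rw [Metric.mem_ball, dist_eq_norm] at hy
      exact hy.le
    rw [PadicInt.norm_le_pow_iff_mem_span_pow, ← PadicInt.ker_toZModPow, RingHom.mem_ker,
      map_sub, sub_eq_zero] at h1
    rw [h1]
  exact hlc.continuous

theorem residue_natCast (m j : ℕ) (hj : j < m) :
    (PadicInt.toZModPow m ((j : ℕ) : ℤ_[2])).val = j := by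
  rw [map_natCast, ZMod.val_natCast]
  exact Nat.mod_eq_of_lt (hj.trans (Nat.lt_pow_self (by norm_num)))

theorem block_unique {n : ℕ → ℕ} (hn : StrictMono n) {k k' r : ℕ}
    (h1 : n k ≤ r) (h2 : r < n (k + 1)) (h3 : n k' ≤ r) (h4 : r < n (k' + 1)) : k = k' := by
  have a : k < k' + 1 := hn.lt_iff_lt.mp (lt_of_le_of_lt h1 h4)
  have b : k' < k + 1 := hn.lt_iff_lt.mp (lt_of_le_of_lt h3 h2)
  omega

/-- One epoch of the construction: the blocks with index in `[a, b)` all have length at least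
`L`; a continuous correction of size at most `1 / L` fixes their sums modulo one without
touching the earlier points. -/
theorem step {n : ℕ → ℕ} (hn : StrictMono n) (c : ℕ → ℝ) (a b : ℕ) (L : ℝ) (hL : 0 < L)
    (hgap : ∀ k, a ≤ k → L ≤ ((n (k + 1) - n k : ℕ) : ℝ)) (S : ℤ_[2] → ℝ) :
    ∃ Ψ : ℤ_[2] → ℝ, Continuous Ψ ∧ (∀ x, |Ψ x| ≤ 1 / L) ∧
      (∀ j : ℕ, j < n a → j < n b → Ψ j = 0) ∧
      (∀ k, a ≤ k → k < b → ∃ z : ℤ,
        ∑ j ∈ Ico (n k) (n (k + 1)), (S j + Ψ j) = c k + z) := by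
  classical
  let h : ℕ → ℝ := fun k =>
    Int.fract (c k - ∑ j ∈ Ico (n k) (n (k + 1)), S j) / ((n (k + 1) - n k : ℕ) : ℝ)
  let g : ℕ → ℝ := fun r =>
    if hr : ∃ k, a ≤ k ∧ n k ≤ r ∧ r < n (k + 1) then h hr.choose else 0
  refine ⟨fun x => g (PadicInt.toZModPow (n b) x).val, continuous_residue _ g, ?_, ?_, ?_⟩
  · intro x
    generalize (PadicInt.toZModPow (n b) x).val = r
    simp only [g]
    split_ifs with hr
    · obtain ⟨h1, -, -⟩ := hr.choose_spec
      have hg := hgap _ h1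
      have hpos : (0 : ℝ) < ((n (hr.choose + 1) - n hr.choose : ℕ) : ℝ) := lt_of_lt_of_le hL hg
      simp only [h]
      rw [abs_of_nonneg (div_nonneg (Int.fract_nonneg _) hpos.le)]
      calc _ ≤ 1 / ((n (hr.choose + 1) - n hr.choose : ℕ) : ℝ) := by
            gcongr
            exact (Int.fract_lt_one _).le
        _ ≤ 1 / L := by gcongr
    · simp only [abs_zero]
      positivity
  · intro j hja hjb
    simp only
    rw [residue_natCast _ _ hjb]
    simp only [g]
    rw [dif_neg]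
    rintro ⟨k, h1, h2, -⟩
    have : n a ≤ n k := hn.monotone h1
    omega
  · intro k hak hkb
    have hnb : n (k + 1) ≤ n b := hn.monotone hkb
    have hval : ∀ j ∈ Ico (n k) (n (k + 1)),
        g (PadicInt.toZModPow (n b) ((j : ℕ) : ℤ_[2])).val = h k := by
      intro j hj
      rw [mem_Ico] at hj
      rw [residue_natCast _ _ (lt_of_lt_of_le hj.2 hnb)]
      have hr : ∃ k, a ≤ k ∧ n k ≤ j ∧ j < n (k + 1) := ⟨k, hak, hj.1, hj.2⟩
      simp only [g]
      rw [dif_pos hr]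
      obtain ⟨-, h2, h3⟩ := hr.choose_spec
      rw [block_unique hn h2 h3 hj.1 hj.2]
    have hpos : (0 : ℝ) < ((n (k + 1) - n k : ℕ) : ℝ) := lt_of_lt_of_le hL (hgap k hak)
    refine ⟨-⌊c k - ∑ j ∈ Ico (n k) (n (k + 1)), S j⌋, ?_⟩
    rw [sum_add_distrib, sum_congr rfl hval, sum_const, Nat.card_Ico, nsmul_eq_mul]
    simp only [h]
    rw [mul_div_cancel₀ _ hpos.ne', Int.fract]
    push_cast
    ring

/-- Epoch boundaries: a strictly increasing sequence of block indices after the `i`-th of which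
all gaps are at least `2 ^ i`. -/
theorem exists_epochs {n : ℕ → ℕ} (hn : StrictMono n)
    (hg : Filter.Tendsto (fun k : ℕ => n (k + 1) - n k) Filter.atTop Filter.atTop) :
    ∃ K : ℕ → ℕ, StrictMono K ∧ K 0 = 0 ∧ ∀ i k, K i ≤ k → 2 ^ i ≤ n (k + 1) - n k := by
  have h1 : ∀ i : ℕ, ∃ N : ℕ, ∀ k, N ≤ k → 2 ^ i ≤ n (k + 1) - n k := by
    intro i
    exact Filter.eventually_atTop.mp (Filter.tendsto_atTop.mp hg (2 ^ i))
  choose N hN using h1
  let K : ℕ → ℕ := fun i => Nat.rec 0 (fun i r => r + N (i + 1) + 1) i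
  have hK : ∀ i, K (i + 1) = K i + N (i + 1) + 1 := fun i => rfl
  refine ⟨K, strictMono_nat_of_lt_succ (fun i => by rw [hK]; omega), rfl, ?_⟩
  intro i k hk
  cases i with
  | zero =>
    have := hn (Nat.lt_succ_self k)
    simp only [Nat.succ_eq_add_one] at this
    simp only [pow_zero]
    omega
  | succ i =>
    apply hN
    rw [hK] at hk
    omega

/-- The cocycle: a continuous function on the 2-adic integers whose sums over the blocks
`[n k, n (k+1))` take prescribed values modulo one. -/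
theorem exists_cocycle {n : ℕ → ℕ} (hn : StrictMono n)
    (hg : Filter.Tendsto (fun k : ℕ => n (k + 1) - n k) Filter.atTop Filter.atTop) (c : ℕ → ℝ) :
    ∃ ψ : ℤ_[2] → ℝ, Continuous ψ ∧
      ∀ k, ∃ z : ℤ, ∑ j ∈ Ico (n k) (n (k + 1)), ψ j = c k + z := by
  obtain ⟨K, hK, hK0, hKg⟩ := exists_epochs hn hg
  have hstep : ∀ (i : ℕ) (S : ℤ_[2] → ℝ), ∃ Ψ : ℤ_[2] → ℝ, Continuous Ψ ∧
      (∀ x, |Ψ x| ≤ 1 / (2 : ℝ) ^ i) ∧
      (∀ j : ℕ, j < n (K i) → j < n (K (i + 1)) → Ψ j = 0) ∧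
      (∀ k, K i ≤ k → k < K (i + 1) → ∃ z : ℤ,
        ∑ j ∈ Ico (n k) (n (k + 1)), (S j + Ψ j) = c k + z) := by
    intro i S
    refine step hn c (K i) (K (i + 1)) _ (by positivity) ?_ S
    intro k hk
    exact_mod_cast hKg i k hk
  choose Ψ hcont hbound hzero hsum using hstep
  let S : ℕ → ℤ_[2] → ℝ := fun i => Nat.rec (fun _ => 0) (fun i T => fun x => T x + Ψ i T x) i
  have hS : ∀ i x, S (i + 1) x = S i x + Ψ i (S i) x := fun i x => rfl
  let u : ℕ → ℤ_[2] → ℝ := fun i => Ψ i (S i)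
  have hSsum : ∀ i x, S i x = ∑ l ∈ range i, u l x := by
    intro i x
    induction i with
    | zero => rfl
    | succ i ih => rw [hS, sum_range_succ, ih]
  have hsummable : Summable (fun i : ℕ => 1 / (2 : ℝ) ^ i) := by
    simpa using summable_geometric_two
  refine ⟨fun x => ∑' i, u i x, continuous_tsum (fun i => hcont i _) hsummable
    (fun i x => hbound i _ x), ?_⟩
  intro k
  have hex : ∃ i, k < K (i + 1) := ⟨k, lt_of_lt_of_le (Nat.lt_succ_self k) (hK.id_le (k + 1))⟩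
  classical
  let i := Nat.find hex
  have hi1 : k < K (i + 1) := Nat.find_spec hex
  have hi0 : K i ≤ k := by
    rcases Nat.eq_zero_or_pos i with h | h
    · rw [h, hK0]
      exact Nat.zero_le _
    · have := Nat.find_min hex (m := i - 1) (by omega)
      rw [Nat.sub_add_cancel h] at this
      omega
  obtain ⟨z, hz⟩ := hsum i (S i) k hi0 hi1
  refine ⟨z, ?_⟩
  rw [← hz]
  refine sum_congr rfl ?_
  intro j hj
  rw [mem_Ico] at hj
  have hjlt : j < n (K (i + 1)) := lt_of_lt_of_le hj.2 (hn.monotone hi1)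
  refine Eq.trans ?_ ((hSsum (i + 1) j).symm.trans (hS i j))
  apply tsum_eq_sum
  intro l hl
  rw [mem_range, not_lt] at hl
  apply hzero
  · exact lt_of_lt_of_le hjlt (hn.monotone (hK.monotone hl))
  · exact lt_of_lt_of_le hjlt (hn.monotone (hK.monotone (by omega)))

/-- The skew product over the 2-adic odometer with fibre the circle. -/
noncomputable def skew (ψ : ℤ_[2] → ℝ) (hψ : Continuous ψ) :
    (ℤ_[2] × UnitAddCircle) ≃ₜ (ℤ_[2] × UnitAddCircle) where
  toFun p := (p.1 + 1, p.2 + ((ψ p.1 : ℝ) : UnitAddCircle))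
  invFun p := (p.1 + (-1), p.2 + (-((ψ (p.1 + (-1)) : ℝ) : UnitAddCircle)))
  left_inv p := by simp
  right_inv p := by simp
  continuous_toFun := by
    refine (continuous_fst.add continuous_const).prodMk (continuous_snd.add ?_)
    exact (AddCircle.continuous_mk' 1).comp (hψ.comp continuous_fst)
  continuous_invFun := by
    refine (continuous_fst.add continuous_const).prodMk (continuous_snd.add ?_)
    exact ((AddCircle.continuous_mk' 1).comp
      (hψ.comp (continuous_fst.add continuous_const))).neg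

/-- Iterates of a skew translation keep points apart. -/
theorem iterate_dist (T : ℤ_[2] × UnitAddCircle → ℤ_[2] × UnitAddCircle) (a : ℤ_[2])
    (g : ℤ_[2] → UnitAddCircle) (hT : ∀ p, T p = (p.1 + a, p.2 + g p.1))
    (p q : ℤ_[2] × UnitAddCircle) (m : ℕ) :
    dist (T^[m] p).1 (T^[m] q).1 = dist p.1 q.1 ∧
      (p.1 = q.1 → dist (T^[m] p).2 (T^[m] q).2 = dist p.2 q.2) := by
  induction m with
  | zero => simp
  | succ m ih =>
    rw [Function.iterate_succ_apply', Function.iterate_succ_apply', hT, hT]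
    refine ⟨by simpa using ih.1, fun h => ?_⟩
    have h1 : (T^[m] p).1 = (T^[m] q).1 := by
      rw [← dist_eq_zero, ih.1, h, dist_self]
    simp only
    rw [h1, dist_add_right, ih.2 h]

theorem skew_distal (ψ : ℤ_[2] → ℝ) (hψ : Continuous ψ) (p q : ℤ_[2] × UnitAddCircle)
    (hpq : p ≠ q) : ∃ ε : ℝ, 0 < ε ∧ ∀ m : ℕ,
      ε ≤ dist ((⇑(skew ψ hψ))^[m] p) ((⇑(skew ψ hψ))^[m] q) ∧
      ε ≤ dist ((⇑(skew ψ hψ).symm)^[m] p) ((⇑(skew ψ hψ).symm)^[m] q) := by
  have h1 := iterate_dist (⇑(skew ψ hψ)) 1 (fun x => ((ψ x : ℝ) : UnitAddCircle))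
    (fun _ => rfl) p q
  have h2 := iterate_dist (⇑(skew ψ hψ).symm) (-1)
    (fun x => -((ψ (x + (-1)) : ℝ) : UnitAddCircle)) (fun _ => rfl) p q
  by_cases h : p.1 = q.1
  · have h' : p.2 ≠ q.2 := fun h' => hpq (Prod.ext h h')
    refine ⟨dist p.2 q.2, dist_pos.mpr h', fun m => ⟨?_, ?_⟩⟩
    · rw [← (h1 m).2 h, Prod.dist_eq]
      exact le_max_right _ _
    · rw [← (h2 m).2 h, Prod.dist_eq]
      exact le_max_right _ _
  · refine ⟨dist p.1 q.1, dist_pos.mpr h, fun m => ⟨?_, ?_⟩⟩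
    · rw [← (h1 m).1, Prod.dist_eq]
      exact le_max_left _ _
    · rw [← (h2 m).1, Prod.dist_eq]
      exact le_max_left _ _

theorem skew_iterate (ψ : ℤ_[2] → ℝ) (hψ : Continuous ψ) (y : ℝ) (m : ℕ) :
    (⇑(skew ψ hψ))^[m] (0, (y : UnitAddCircle)) =
      (((m : ℕ) : ℤ_[2]), ((y + ∑ j ∈ range m, ψ j : ℝ) : UnitAddCircle)) := by
  induction m with
  | zero => simp
  | succ m ih =>
    rw [Function.iterate_succ_apply', ih, sum_range_succ]
    change (_, _) = (_, _)
    simp [add_assoc]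

end Pool.Agent.Lib.MP_ddde1e_an
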